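import Pool.Agent.H56.CF.Targets

/-!
# Complete family, part R: row RAT, characters with the same values at the principal ideals
-/

set_option autoImplicit false

open NumberField Module
open scoped nonZeroDivisors

namespace Pool.Agent.H23.CF

open Pool.Agent.H28.RC Pool.Agent.H91.CF Pool.Agent.H24.Cls Pool.Agent.H31.CN Pool.Agent.H56.CF

section
variable {K : Type} [Field K] [NumberField K]

theorem sup_mul {F I J : Ideal (𝓞 K)} (hI : I ⊔ F = ⊤) (hJ : J ⊔ F = ⊤) : I * J ⊔ F = ⊤ := by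
  rw [← Ideal.isCoprime_iff_sup_eq] at hI hJ ⊢
  exact hI.mul_left hJ

/-- the same values at the principal ideals -/
theorem val_eq {f : ℕ} {S : Finset (RP K)}
    {θ : ((𝓞 K ⧸ Ideal.span {(f : 𝓞 K)})ˣ ⧸ VF K f) →* ℂˣ} {χ χ' : RCC K}
    (h : Th K f S χ.ψ θ) (h' : Th K f S χ'.ψ θ) {a : 𝓞 K} (ha : a ≠ 0)
    (hc : Ideal.span {a} ⊔ Ideal.span {(f : 𝓞 K)} = ⊤) :
    χ'.ψ (Ideal.span {a}) = χ.ψ (Ideal.span {a}) := by
  have hu : IsUnit (Ideal.Quotient.mk (Ideal.span {(f : 𝓞 K)}) a) := by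
    rw [← Ideal.isCoprime_iff_sup_eq, Ideal.isCoprime_span_singleton_iff] at hc
    obtain ⟨x, y, hxy⟩ := hc
    refine IsUnit.of_mul_eq_one (Ideal.Quotient.mk (Ideal.span {(f : 𝓞 K)}) x) ?_
    rw [← map_mul, ← map_one (Ideal.Quotient.mk (Ideal.span {(f : 𝓞 K)})), ← hxy]
    rw [Ideal.Quotient.eq]
    refine Ideal.mem_span_singleton.2 ⟨-y, ?_⟩
    ring
  obtain ⟨u, hu⟩ := hu
  rw [h a u ha hu, h' a u ha hu]

end

theorem pf_RAT (hC : T_COP) : Pool.Agent.H56.CF.T_RAT := by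
  intro K _ _ f hf S θ χ χ' hχ hχ' hS hS' hTh hTh'
  classical
  set F : Ideal (𝓞 K) := Ideal.span {(f : 𝓞 K)} with hF
  have hfχ : χ.f = F := hχ.2
  have hfχ' : χ'.f = F := hχ'.2
  have hne : ∀ I : (Ideal (𝓞 K))⁰, (I : Ideal (𝓞 K)) ⊔ F = ⊤ → χ.ψ I ≠ 0 ∧ χ'.ψ I ≠ 0 := by
    intro I hI
    have hI0 : (I : Ideal (𝓞 K)) ≠ ⊥ := nonZeroDivisors.coe_ne_zero I
    constructor
    · intro h0
      have := χ.norm_one I hI0 (by rw [hfχ]; exact hI)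
      rw [h0, norm_zero] at this
      exact zero_ne_one this
    · intro h0
      have := χ'.norm_one I hI0 (by rw [hfχ']; exact hI)
      rw [h0, norm_zero] at this
      exact zero_ne_one this
  -- the values at the ideals in inverse classes
  have key : ∀ I J : (Ideal (𝓞 K))⁰, (I : Ideal (𝓞 K)) ⊔ F = ⊤ → (J : Ideal (𝓞 K)) ⊔ F = ⊤ →
      ClassGroup.mk0 I * ClassGroup.mk0 J = 1 → χ'.ψ I * χ'.ψ J = χ.ψ I * χ.ψ J := by
    intro I J hI hJ h1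
    rw [← map_mul] at h1
    have hIJ0 : ((I * J : (Ideal (𝓞 K))⁰) : Ideal (𝓞 K)) ≠ ⊥ := nonZeroDivisors.coe_ne_zero _
    have h2 := (ClassGroup.mk0_eq_one_iff (I * J).2).1 h1
    obtain ⟨a, ha⟩ := h2.principal
    have ha' : (I : Ideal (𝓞 K)) * J = Ideal.span {a} := ha
    have ha0 : a ≠ 0 := by
      rintro rfl
      apply hIJ0
      change (I : Ideal (𝓞 K)) * J = ⊥
      rw [ha', Ideal.span_singleton_eq_bot]
    rw [← χ.map_mul, ← χ'.map_mul, ha']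
    refine val_eq hTh hTh' ha0 ?_
    rw [← ha']
    exact sup_mul hI hJ
  have same : ∀ I I' : (Ideal (𝓞 K))⁰, (I : Ideal (𝓞 K)) ⊔ F = ⊤ →
      (I' : Ideal (𝓞 K)) ⊔ F = ⊤ → ClassGroup.mk0 I = ClassGroup.mk0 I' →
      χ'.ψ I / χ.ψ I = χ'.ψ I' / χ.ψ I' := by
    intro I I' hI hI' h1
    obtain ⟨J, hJ1, hJ2⟩ := hC K f hf (ClassGroup.mk0 I)⁻¹
    have h2 := key I J hI hJ2 (by rw [hJ1, mul_inv_cancel])
    have h3 := key I' J hI' hJ2 (by rw [hJ1, ← h1, mul_inv_cancel])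
    obtain ⟨a1, a2⟩ := hne I hI
    obtain ⟨b1, b2⟩ := hne I' hI'
    obtain ⟨c1, c2⟩ := hne J hJ2
    rw [div_eq_div_iff a1 b1]
    have h4 : χ'.ψ I * χ.ψ I' * (χ.ψ J * χ'.ψ J) = χ'.ψ I' * χ.ψ I * (χ.ψ J * χ'.ψ J) := by
      calc χ'.ψ I * χ.ψ I' * (χ.ψ J * χ'.ψ J) = (χ'.ψ I * χ'.ψ J) * (χ.ψ I' * χ.ψ J) := by ring
        _ = (χ.ψ I * χ.ψ J) * (χ'.ψ I' * χ'.ψ J) := by rw [h2, h3]
        _ = χ'.ψ I' * χ.ψ I * (χ.ψ J * χ'.ψ J) := by ring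
    exact mul_right_cancel₀ (mul_ne_zero c1 c2) h4
  choose R hR1 hR2 using hC K f hf
  have hval : ∀ c, χ'.ψ (R c) / χ.ψ (R c) ≠ 0 := fun c =>
    div_ne_zero (hne _ (hR2 c)).2 (hne _ (hR2 c)).1
  have htop : ((1 : (Ideal (𝓞 K))⁰) : Ideal (𝓞 K)) ⊔ F = ⊤ := by
    rw [OneMemClass.coe_one, Ideal.one_eq_top, top_sup_eq]
  let φ : ClassGroup (𝓞 K) →* ℂˣ :=
    { toFun := fun c => Units.mk0 _ (hval c)
      map_one' := by
        apply Units.ext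
        rw [Units.val_mk0, Units.val_one]
        rw [same (R 1) 1 (hR2 1) htop (by rw [hR1, map_one])]
        rw [OneMemClass.coe_one, Ideal.one_eq_top, χ.map_one, χ'.map_one, div_one]
      map_mul' := by
        intro c c'
        apply Units.ext
        rw [Units.val_mul, Units.val_mk0, Units.val_mk0, Units.val_mk0]
        rw [same (R (c * c')) (R c * R c') (hR2 _)
          (sup_mul (hR2 c) (hR2 c')) (by rw [hR1, map_mul, hR1, hR1])]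
        change χ'.ψ ((R c : Ideal (𝓞 K)) * R c') / χ.ψ ((R c : Ideal (𝓞 K)) * R c') = _
        rw [χ.map_mul, χ'.map_mul, mul_div_mul_comm] }
  refine ⟨φ, fun I => ?_⟩
  by_cases hI : (I : Ideal (𝓞 K)) ⊔ F = ⊤
  · have h1 : ((φ (ClassGroup.mk0 I) : ℂˣ) : ℂ) =
        χ'.ψ (R (ClassGroup.mk0 I)) / χ.ψ (R (ClassGroup.mk0 I)) := rfl
    rw [h1, same (R (ClassGroup.mk0 I)) I (hR2 _) hI (hR1 _)]
    have h2 := (hne I hI).1
    field_simp
  · rw [χ.eq_zero I (by rw [hfχ]; exact hI), χ'.eq_zero I (by rw [hfχ']; exact hI), zero_mul]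

end Pool.Agent.H23.CF
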