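import Pool.Agent.H37.CF.Basic

/-!
# Complete family, part C: row CND, the conductor of a character trivial on the rationals
-/

set_option autoImplicit false

open NumberField
open scoped nonZeroDivisors

namespace Pool.Agent.H23.CF

open Pool.Agent.H31.CN Pool.Agent.H95.CF Pool.Agent.H28.RC Pool.Agent.H37.CF
open Pool.Agent.H91.CF (ch npt npD xit xiD pit piD TrQ NRe NVc RQ nn rr ww fmD Fu)

theorem pf_CND (hCGR : T_CGR) (hCYC : Pool.Agent.H37.CF.T_CYC) (hPPT : T_PPT) : Pool.Agent.H91.CF.T_CND := by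
  intro K _ _ h2 χ hT
  obtain ⟨f, J, hf, hJ, hfJ, hprim⟩ := hPPT K χ.f χ.f_ne
  by_cases hJt : J = ⊤
  · exact ⟨f, hf, by rw [hfJ, hJt, Ideal.mul_top]⟩
  exfalso
  obtain ⟨P, hP, hJP⟩ := Ideal.exists_le_maximal J hJt
  have hfP : χ.f ≤ P := by
    rw [hfJ]
    exact Ideal.mul_le_right.trans hJP
  obtain ⟨a, ha0, hac, haP, hne⟩ := χ.prim P hP.isPrime hfP
  have hPne : P ≠ ⊥ := fun h => χ.f_ne (le_bot_iff.1 (h ▸ hfP))
  have h1 : Ideal.span {a - 1} * P ≤ Ideal.span {(f : 𝓞 K)} * P := by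
    rw [Ideal.mul_le]
    intro r hr x hx
    obtain ⟨c, rfl⟩ := Ideal.mem_span_singleton.1 hr
    have h4 := haP x hx
    rw [hfJ] at h4
    have h3 := (Ideal.mul_mono_right hJP) h4
    have h5 : (a - 1) * c * x = c * ((a - 1) * x) := by ring
    rw [h5]
    exact Ideal.mul_mem_left _ _ h3
  have h2' : Ideal.span {a - 1} ≤ Ideal.span {(f : 𝓞 K)} := by
    rw [← Ideal.dvd_iff_le] at h1 ⊢
    exact (mul_dvd_mul_iff_right hPne).1 h1
  obtain ⟨t, ht⟩ := Ideal.mem_span_singleton.1 ((Ideal.span_singleton_le_iff_mem _).1 h2')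
  obtain ⟨k, hk⟩ := hCYC K h2 J hJ hprim t
  have hN : 1 ≤ Ideal.absNorm χ.f := Nat.one_le_iff_ne_zero.2 (by
    rw [Ne, Ideal.absNorm_eq_zero_iff]
    exact χ.f_ne)
  obtain ⟨M, hM1, hM2⟩ := ex_nat hN (1 + f * k)
  have haM : a - (M : 𝓞 K) ∈ χ.f := by
    have e1 : a - (M : 𝓞 K) =
        (f : 𝓞 K) * (t - k) - (((M : ℤ) - (1 + f * k) : ℤ) : 𝓞 K) := by
      push_cast
      linear_combination ht
    rw [e1]
    refine Ideal.sub_mem _ ?_ ?_
    · have h6 := Ideal.mul_mem_mul (Ideal.mem_span_singleton_self (f : 𝓞 K)) hk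
      rw [← hfJ] at h6
      exact h6
    · obtain ⟨c, hc⟩ := hM2
      rw [hc]
      push_cast
      exact Ideal.mul_mem_right _ _ (Ideal.absNorm_mem _)
  have hMc : Ideal.span {(M : 𝓞 K)} ⊔ χ.f = ⊤ := by
    rw [← top_le_iff, ← hac]
    refine sup_le ?_ le_sup_right
    rw [Ideal.span_singleton_le_iff_mem]
    have h7 : a = M + (a - M) := by ring
    rw [h7]
    exact Submodule.add_mem_sup (Ideal.mem_span_singleton_self _) haM
  have hM0 : (M : 𝓞 K) ≠ 0 := by
    have h8 : M ≠ 0 := by omega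
    exact_mod_cast h8
  have key := hCGR K χ a M ha0 hM0 hac haM
  rw [hT M hM1 hMc, one_mul] at key
  have hsg : sg K χ.S ((M : 𝓞 K) : K) = 1 := by
    unfold sg
    refine Finset.prod_eq_one fun v _ => ?_
    rw [if_pos]
    unfold re
    have h9 : (((M : 𝓞 K) : K)) = (M : K) := by simp
    rw [h9, map_natCast]
    exact_mod_cast hM1
  rw [hsg, mul_one] at key
  exact hne key

end Pool.Agent.H23.CF
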