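import Pool.Agent.H37.CF.Basic

/-!
# Complete family, part C: row CNU, the number of pairs
-/

set_option autoImplicit false

open NumberField
open scoped nonZeroDivisors

namespace Pool.Agent.H23.CF

open Pool.Agent.H31.CN Pool.Agent.H95.CF Pool.Agent.H28.RC Pool.Agent.H37.CF

theorem pf_CNU (hCNM : T_CNM) (hCNP : T_CNP) : T_CNU := by
  intro t n f
  induction f using Nat.recOnPosPrimePosCoprime with
  | prime_pow p k hp hk =>
    intro d _ hd
    obtain ⟨j, hjk, rfl⟩ := (Nat.dvd_prime_pow hp).1 hd
    rcases Nat.lt_or_ge j k with h | h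
    · rw [((hCNP t n p k j hp hk).1 h)]
      rcases Nat.eq_zero_or_pos j with rfl | hj
      · simp
      · rw [Nat.primeFactors_prime_pow hj.ne' hp, Finset.prod_singleton, hp.factorization_pow,
          hp.factorization_pow, Finsupp.single_eq_same, Finsupp.single_eq_same, if_pos h]
        push_cast
        rfl
    · have hj : j = k := le_antisymm hjk h
      subst hj
      rw [(hCNP t n p j j hp hk).2, Nat.primeFactors_prime_pow (by omega) hp,
        Finset.prod_singleton, if_neg (lt_irrefl _), hp.factorization_pow,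
        Finsupp.single_eq_same]
  | zero => intro d h; omega
  | one =>
    intro d _ hd
    have hd1 : d = 1 := Nat.dvd_one.1 hd
    subst hd1
    have h1 := hCNM t n 2 1 1 1 (by norm_num) (by norm_num) (by norm_num) (by norm_num)
      (by norm_num)
    have h2 := (hCNP t n 2 1 0 Nat.prime_two le_rfl).1 (by norm_num)
    norm_num at h1 h2
    rw [h2] at h1
    simp at h1 ⊢
    omega
  | coprime a b ha hb hab iha ihb =>
    intro d _ hd
    obtain ⟨d₁, d₂, h1, h2, rfl⟩ := Nat.dvd_mul.1 hd
    have hdd : Nat.Coprime d₁ d₂ := Nat.Coprime.coprime_dvd_left h1 (hab.coprime_dvd_right h2)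
    have ha0 : a ≠ 0 := by omega
    have hb0 : b ≠ 0 := by omega
    rw [hCNM t n a b d₁ d₂ hab ha.le hb.le h1 h2]
    push_cast
    rw [iha d₁ ha.le h1, ihb d₂ hb.le h2, Nat.totient_mul hab, hdd.primeFactors_mul,
      Finset.prod_union hdd.disjoint_primeFactors]
    have e1 : ∀ p ∈ d₁.primeFactors, (d₁ * d₂).factorization p = d₁.factorization p ∧
        (a * b).factorization p = a.factorization p := fun p hp =>
      ⟨Nat.factorization_eq_of_coprime_left hdd (Nat.mem_primeFactors_iff_mem_primeFactorsList.1 hp),
        Nat.factorization_eq_of_coprime_left hab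
        (Nat.mem_primeFactors_iff_mem_primeFactorsList.1 (Nat.primeFactors_mono h1 ha0 hp))⟩
    have e2 : ∀ p ∈ d₂.primeFactors, (d₁ * d₂).factorization p = d₂.factorization p ∧
        (a * b).factorization p = b.factorization p := fun p hp =>
      ⟨Nat.factorization_eq_of_coprime_right hdd (Nat.mem_primeFactors_iff_mem_primeFactorsList.1 hp),
        Nat.factorization_eq_of_coprime_right hab
        (Nat.mem_primeFactors_iff_mem_primeFactorsList.1 (Nat.primeFactors_mono h2 hb0 hp))⟩
    have e3 : (∏ p ∈ d₁.primeFactors, (if (d₁ * d₂).factorization p < (a * b).factorization p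
        then (p : ℤ) ^ (d₁ * d₂).factorization p
        else (p : ℤ) ^ ((d₁ * d₂).factorization p - 1) * (p + 1 - nrt p 1 t n))) =
        ∏ p ∈ d₁.primeFactors, (if d₁.factorization p < a.factorization p
        then (p : ℤ) ^ d₁.factorization p
        else (p : ℤ) ^ (d₁.factorization p - 1) * (p + 1 - nrt p 1 t n)) :=
      Finset.prod_congr rfl fun p hp => by rw [(e1 p hp).1, (e1 p hp).2]
    have e4 : (∏ p ∈ d₂.primeFactors, (if (d₁ * d₂).factorization p < (a * b).factorization p
        then (p : ℤ) ^ (d₁ * d₂).factorization p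
        else (p : ℤ) ^ ((d₁ * d₂).factorization p - 1) * (p + 1 - nrt p 1 t n))) =
        ∏ p ∈ d₂.primeFactors, (if d₂.factorization p < b.factorization p
        then (p : ℤ) ^ d₂.factorization p
        else (p : ℤ) ^ (d₂.factorization p - 1) * (p + 1 - nrt p 1 t n)) :=
      Finset.prod_congr rfl fun p hp => by rw [(e2 p hp).1, (e2 p hp).2]
    rw [e3, e4]
    push_cast
    ring

end Pool.Agent.H23.CF
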