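import Pool.Agent.H56.CF.Targets

/-!
# Complete family, part R: row PHI, a lower bound for the totient
-/

set_option autoImplicit false

namespace Pool.Agent.H23.CF

open Pool.Agent.H56.CF

theorem phi_key (f : ℕ) : 0 < f → f ≤ (if 2 ∣ f then 2 else 1) * f.totient ^ 2 := by
  induction f using Nat.recOnPosPrimePosCoprime with
  | prime_pow p k hp hk =>
    intro _
    obtain ⟨k, rfl⟩ : ∃ j, k = j + 1 := ⟨k - 1, by omega⟩
    rw [Nat.totient_prime_pow_succ hp]
    by_cases h2 : p = 2
    · subst h2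
      rw [if_pos (dvd_pow_self 2 (Nat.succ_ne_zero k))]
      have h1 : 1 ≤ 2 ^ k := Nat.one_le_two_pow
      simp only [Nat.add_one_sub_one, mul_one]
      rw [pow_succ]
      nlinarith
    · have hp3 : 3 ≤ p := by
        have := hp.two_le
        omega
      have hnd : ¬ 2 ∣ p ^ (k + 1) := by
        intro h
        have h3 := Nat.prime_two.dvd_of_dvd_pow h
        exact h2 ((Nat.prime_dvd_prime_iff_eq Nat.prime_two hp).1 h3).symm
      rw [if_neg hnd, one_mul]
      obtain ⟨q, rfl⟩ : ∃ q, p = q + 3 := ⟨p - 3, by omega⟩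
      have h4 : q + 3 ≤ (q + 3 - 1) ^ 2 := by
        have : q + 3 - 1 = q + 2 := by omega
        rw [this]
        nlinarith
      have h5 : 1 ≤ (q + 3) ^ k := Nat.one_le_pow _ _ (by omega)
      calc (q + 3) ^ (k + 1) = (q + 3) ^ k * (q + 3) := pow_succ _ _
        _ ≤ ((q + 3) ^ k * (q + 3) ^ k) * (q + 3 - 1) ^ 2 := by
            refine Nat.mul_le_mul ?_ h4
            nlinarith
        _ = ((q + 3) ^ k * (q + 3 - 1)) ^ 2 := by ring
  | zero => intro h; exact absurd h (lt_irrefl 0)
  | one => intro _; simp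
  | coprime a b ha hb hab iha ihb =>
    intro _
    have h1 := iha (by omega)
    have h2 := ihb (by omega)
    rw [Nat.totient_mul hab]
    have h3 : (if 2 ∣ a then 2 else 1) * (if 2 ∣ b then 2 else 1) ≤ (if 2 ∣ a * b then 2 else 1) := by
      by_cases ha2 : 2 ∣ a
      · have hb2 : ¬ 2 ∣ b := fun hb2 => by
          have := Nat.dvd_gcd ha2 hb2
          rw [hab] at this
          omega
        rw [if_pos ha2, if_neg hb2, if_pos (dvd_mul_of_dvd_left ha2 b)]
      · by_cases hb2 : 2 ∣ b
        · rw [if_neg ha2, if_pos hb2, if_pos (dvd_mul_of_dvd_right hb2 a)]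
        · rw [if_neg ha2, if_neg hb2]
          split_ifs <;> omega
    calc a * b ≤ ((if 2 ∣ a then 2 else 1) * a.totient ^ 2) *
          ((if 2 ∣ b then 2 else 1) * b.totient ^ 2) := Nat.mul_le_mul h1 h2
      _ = ((if 2 ∣ a then 2 else 1) * (if 2 ∣ b then 2 else 1)) *
          (a.totient * b.totient) ^ 2 := by ring
      _ ≤ _ := Nat.mul_le_mul_right _ h3

theorem pf_PHI : T_PHI := by
  intro f hf
  refine (phi_key f hf).trans (Nat.mul_le_mul_right _ ?_)
  split_ifs <;> omega

end Pool.Agent.H23.CF
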